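import Pool.Agent.helper14.XG.Spec

/-!
# Row xg:IN2
-/

set_option autoImplicit false

namespace Pool.Agent.XG

open Finset
open Pool.Agent.XT

/-- real version of the bound for a sum -/
theorem IN2_sum {α : Type} (A : Finset α) (f : α → ℝ) (c d : ℝ) (hc : ∀ a ∈ A, f a ≤ c)
    (hA : (A.card : ℝ) ≤ d) (h0 : 0 ≤ c) : ∑ a ∈ A, f a ≤ d * c := by
  calc ∑ a ∈ A, f a ≤ ∑ _a ∈ A, c := Finset.sum_le_sum hc
    _ = A.card * c := by rw [Finset.sum_const, nsmul_eq_mul]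
    _ ≤ d * c := mul_le_mul_of_nonneg_right hA h0

theorem IN2 : IN2_stmt := by
  classical
  intro n D B Nr F hS hD t t' ht ht' Z hZ
  have ht0 : 0 < t := by linarith
  have ht0' : 0 < t' := by linarith
  set E : Finset (Fin n × Fin n) := Finset.univ.filter (fun e => t' < (nn B Nr e.1 e.2 : ℝ)) with hE
  set W := E.sigma (fun e => (NS B Nr e.1 e.2).sigma (fun a => (com B a e.2).sigma
    (fun _l' => (dP B e.2).sigma (fun m' => ((dL B m').filter
      (fun b => (nn B Nr e.1 b : ℝ) ≤ t)).sigma (fun b => (NS B Nr e.1 b).sigma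
        (fun x => com B x b)))))) with hW
  have h1 : Z.card ≤ W.card := by
    refine Finset.card_le_card_of_injOn (fun z => ⟨(z.2.1.1, z.2.2.2.1), z.1.1, z.2.2.1,
      z.2.2.2.2, z.1.2, z.2.1.2.1, z.2.1.2.2⟩) ?_ ?_
    · intro z hz
      obtain ⟨hz1, hz2, hz3, hz4⟩ := hZ z (Finset.mem_coe.mp hz)
      unfold PP at hz1 hz2
      rw [Finset.mem_filter] at hz1 hz2
      obtain ⟨_, u1, u2, u3, u4, u5, u6, u7, u8, u9, _⟩ := hz1
      obtain ⟨_, v1, v2, v3, v4, v5, v6, v7, v8, v9, _⟩ := hz2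
      rw [hW]
      simp only [Finset.mem_coe, Finset.mem_sigma, hE, Finset.mem_filter, Finset.mem_univ,
        true_and, NS, com, dP, dL]
      exact ⟨hz4, ⟨hz3, u3, v1⟩, ⟨v3, v4⟩, v5, ⟨v6, u9⟩, ⟨u7, u4, u2⟩, u5, u6⟩
    · intro z _ z' _ h
      simp only [Sigma.mk.injEq, heq_eq_eq, Prod.mk.injEq] at h
      obtain ⟨⟨h1, h2⟩, h3, h4, h5, h6, h7, h8⟩ := h
      refine Prod.ext (Prod.ext h3 h6) (Prod.ext (Prod.ext h1 (Prod.ext h7 h8))
        (Prod.ext h4 (Prod.ext h2 h5)))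
  have h2 : (Z.card : ℝ) ≤ (W.card : ℝ) := by exact_mod_cast h1
  refine h2.trans ?_
  have hKK : (0 : ℝ) ≤ (KK : ℝ) := by positivity
  have hDD : (0 : ℝ) ≤ (D : ℝ) := by positivity
  have hcW : (W.card : ℝ) = ∑ e ∈ E, ∑ a ∈ NS B Nr e.1 e.2, ∑ _l' ∈ com B a e.2,
      ∑ m' ∈ dP B e.2, ∑ b ∈ (dL B m').filter (fun b => (nn B Nr e.1 b : ℝ) ≤ t),
        ∑ x ∈ NS B Nr e.1 b, ((com B x b).card : ℝ) := by
    rw [hW]
    simp only [Finset.card_sigma]
    push_cast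
    rfl
  rw [hcW]
  have hLt : ∀ l y x, x ∈ NS B Nr l y → ((com B x y).card : ℝ) ≤ KK := by
    intro l y x hx
    unfold NS at hx
    rw [Finset.mem_filter] at hx
    exact_mod_cast hx.2.2.2.2.2.2
  have hinner : ∀ e ∈ E, ∀ a ∈ NS B Nr e.1 e.2, ∑ _l' ∈ com B a e.2,
      ∑ m' ∈ dP B e.2, ∑ b ∈ (dL B m').filter (fun b => (nn B Nr e.1 b : ℝ) ≤ t),
        ∑ x ∈ NS B Nr e.1 b, ((com B x b).card : ℝ) ≤ KK * (D * (D * (t * KK))) := by
    intro e _ a ha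
    refine IN2_sum _ _ _ _ (fun l' _ => ?_) (hLt _ _ _ ha) (by positivity)
    refine IN2_sum _ _ _ _ (fun m' _ => ?_) (by exact_mod_cast hD.pu e.2) (by positivity)
    refine IN2_sum _ _ _ _ (fun b hb => ?_) ?_ (by positivity)
    · refine IN2_sum _ _ _ _ (fun x hx => hLt _ _ _ hx) ?_ hKK
      exact (Finset.mem_filter.mp hb).2
    · have : ((dL B m').filter (fun b => (nn B Nr e.1 b : ℝ) ≤ t)).card ≤ D :=
        (Finset.card_filter_le _ _).trans (hD.lu m')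
      exact_mod_cast this
  calc ∑ e ∈ E, ∑ a ∈ NS B Nr e.1 e.2, ∑ _l' ∈ com B a e.2,
      ∑ m' ∈ dP B e.2, ∑ b ∈ (dL B m').filter (fun b => (nn B Nr e.1 b : ℝ) ≤ t),
        ∑ x ∈ NS B Nr e.1 b, ((com B x b).card : ℝ)
      ≤ ∑ e ∈ E, (nn B Nr e.1 e.2 : ℝ) * (KK * (D * (D * (t * KK)))) := by
        refine Finset.sum_le_sum (fun e he => ?_)
        exact IN2_sum _ _ _ _ (hinner e he) (le_of_eq rfl) (by positivity)
    _ ≤ ∑ e ∈ E, ((nn B Nr e.1 e.2 : ℝ) ^ 2 / t') * (KK * (D * (D * (t * KK)))) := by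
        refine Finset.sum_le_sum (fun e he => ?_)
        refine mul_le_mul_of_nonneg_right ?_ (by positivity)
        rw [le_div_iff₀ ht0', sq]
        exact mul_le_mul_of_nonneg_left (Finset.mem_filter.mp he).2.le (by positivity)
    _ ≤ ∑ e : Fin n × Fin n, ((nn B Nr e.1 e.2 : ℝ) ^ 2 / t') * (KK * (D * (D * (t * KK)))) := by
        refine Finset.sum_le_sum_of_subset_of_nonneg (Finset.subset_univ _) (fun e _ _ => by positivity)
    _ = (KK : ℝ) ^ 2 * t * (D : ℝ) ^ 2 * (QQ B Nr : ℝ) / t' := by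
        rw [← Finset.sum_mul, ← Finset.sum_div]
        unfold QQ
        push_cast
        ring

end Pool.Agent.XG
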