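import Pool.Agent.helper14.XG.Spec

/-!
# Row xg:STB
-/

set_option autoImplicit false

namespace Pool.Agent.XG

open Finset
open Pool.Agent.XT

theorem STB (_hBAS : BAS_stmt) (hSTW : STW_stmt) : STB_stmt := by
  classical
  intro n B Nr F hS t ht x
  set P : Fin n → (Fin 3 → Fin n) → Prop := fun y s => ∀ i j, i ≠ j →
    Ty B Nr F t (x i) (s i) y (s j) (x j) with hP
  set Q : Finset (Fin n × (Fin 3 → Fin n)) := Finset.univ.filter (fun q => P q.1 q.2) with hQ
  set Y : Finset (Fin n) := Q.image Prod.fst with hY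
  have hYP : ∀ y ∈ Y, ∃ s, P y s := by
    intro y hy
    rw [hY, Finset.mem_image] at hy
    obtain ⟨q, hq, rfl⟩ := hy
    exact ⟨q.2, (Finset.mem_filter.mp hq).2⟩
  have hex : ∃ s : Fin n → (Fin 3 → Fin n), ∀ y ∈ Y, P y (s y) := by
    refine ⟨fun y => if h : ∃ s, P y s then h.choose else fun _ => y, fun y hy => ?_⟩
    have h := hYP y hy
    simp only [h, dite_true]
    exact h.choose_spec
  obtain ⟨s, hs⟩ := hex
  have hne : ∀ i : Fin 3, ∃ j : Fin 3, i ≠ j := by decide
  have hKK : (0 : ℝ) ≤ (KK : ℝ) ^ 3 := by positivity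
  rcases Y.eq_empty_or_nonempty with h0 | h0
  · have : Q = ∅ := by
      rw [hY, Finset.image_eq_empty] at h0; exact h0
    rw [this]
    simp only [Finset.card_empty, Nat.cast_zero]
    positivity
  obtain ⟨y0, hy0⟩ := h0
  have hxi : Function.Injective x := by
    intro i j hij
    by_contra hne'
    have h1 := hs y0 hy0 i j hne'
    obtain ⟨_, _, h2, _, _, _, h3, _⟩ := h1
    rw [← hij] at h3
    exact h3 h2
  have hstar : ∀ y ∈ Y, Star B Nr F x y (s y) := by
    intro y hy
    have hp := hs y hy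
    refine ⟨fun i => ?_, ?_, ?_, fun i => ?_, fun i hi => ?_⟩
    · obtain ⟨j, hj⟩ := hne i
      exact (hp i j hj).1.1
    · exact (hp 2 0 (by decide)).1.2.1
    · intro i j hij
      by_contra hne'
      obtain ⟨_, _, _, _, _, h5, h3, _⟩ := hp i j hne'
      rw [hij] at h3
      exact h3 h5
    · obtain ⟨j, hj⟩ := hne i
      obtain ⟨_, _, h3, h4, _⟩ := hp i j hj
      exact ⟨h3, h4⟩
    · have hj : (2 : Fin 3) ≠ i := fun h => hi h.symm
      obtain ⟨_, _, _, _, _, _, _, _, _, _, h11, h12, _, _⟩ := hp 2 i hj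
      exact ⟨h11, h12⟩
  have hcard : ∀ y ∈ Y, ∀ i, ((Y.filter (fun z => s z i = s y i)).card : ℝ) ≤ t := by
    intro y hy i
    obtain ⟨j, hj⟩ := hne i
    have hsub : Y.filter (fun z => s z i = s y i) ⊆ NS B Nr (s y i) (x j) := by
      intro z hz
      rw [Finset.mem_filter] at hz
      obtain ⟨_, h2, _, h4, _, _, h7, _⟩ := hs z hz.1 i j hj
      rw [hz.2] at h4 h7
      unfold NS
      rw [Finset.mem_filter]
      exact ⟨Finset.mem_univ _, h7, h4, h2⟩
    obtain ⟨_, _, _, _, _, _, _, _, h9, _⟩ := hs y hy i j hj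
    refine le_trans ?_ h9
    unfold nn
    exact_mod_cast Finset.card_le_card hsub
  have hsum := hSTW n B Nr F hS x Y s (fun _ => t) hxi hstar (fun _ _ => ht) hcard
  rw [Finset.sum_const, nsmul_eq_mul] at hsum
  have htpos : 0 < t := by linarith
  have hYc : (Y.card : ℝ) ≤ 60020 * t := by
    have : (Y.card : ℝ) * (1 / t) * t ≤ 60020 * t := mul_le_mul_of_nonneg_right hsum htpos.le
    have h2 : (Y.card : ℝ) * (1 / t) * t = Y.card := by field_simp
    linarith
  have hfib : Q.card ≤ KK ^ 3 * Y.card := by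
    refine Finset.card_le_mul_card_image Q (KK ^ 3) (fun y hy => ?_)
    have hlt : ∀ i, (com B (x i) y).card ≤ KK := by
      intro i
      obtain ⟨j, hj⟩ := hne i
      exact (hs y hy i j hj).1.2.2.2
    have hsub : ((Q.filter (fun q => q.1 = y)).card) ≤
        (Fintype.piFinset (fun i : Fin 3 => com B (x i) y)).card := by
      refine Finset.card_le_card_of_injOn Prod.snd ?_ ?_
      · intro q hq
        simp only [Finset.coe_filter, Set.mem_setOf_eq] at hq
        obtain ⟨hq1, hq2⟩ := hq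
        have hq3 : P q.1 q.2 := (Finset.mem_filter.mp hq1).2
        simp only [Finset.mem_coe, Fintype.mem_piFinset]
        intro i
        obtain ⟨j, hj⟩ := hne i
        obtain ⟨_, _, h3, h4, _⟩ := hq3 i j hj
        unfold com
        rw [Finset.mem_filter]
        rw [hq2] at h4
        exact ⟨Finset.mem_univ _, h3, h4⟩
      · intro q hq q' hq' h
        simp only [Finset.coe_filter, Set.mem_setOf_eq] at hq hq'
        exact Prod.ext (hq.2.trans hq'.2.symm) h
    refine hsub.trans ?_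
    rw [Fintype.card_piFinset]
    calc ∏ i : Fin 3, (com B (x i) y).card ≤ ∏ _i : Fin 3, KK :=
          Finset.prod_le_prod' (fun i _ => hlt i)
      _ = KK ^ 3 := by simp
  calc (Q.card : ℝ) ≤ ((KK ^ 3 * Y.card : ℕ) : ℝ) := by exact_mod_cast hfib
    _ = (KK : ℝ) ^ 3 * Y.card := by push_cast; ring
    _ ≤ (KK : ℝ) ^ 3 * (60020 * t) := mul_le_mul_of_nonneg_left hYc hKK
    _ = 60020 * (KK : ℝ) ^ 3 * t := by ring

end Pool.Agent.XG
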